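import Pool.Agent.Y104.WL.Stm

/-!
# Products of pull-backs of classes which are not zero
-/

open CategoryTheory AlgebraicGeometry

set_option linter.unusedSectionVars false

universe u v

namespace Pool.Agent.Y70.WL

open Pool.Agent.H914 Pool.Agent.H914.VarClass Pool.Agent.H914.VarClass.Obj
  Pool.Agent.H914.WeilCohomology Pool.Agent.Y104.Geo Pool.Agent.Y104.WL

variable {k : Type u} [Field k] {𝒱 : VarClass k} {ops : CycleOps 𝒱}
  {W : WeilCohomology.{u, v} ops}

/-- External products of classes which are not zero are not zero. -/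
theorem ext_ne_zero {X Y : 𝒱.Obj} {a : W.H X} {b : W.H Y} (ha : a ≠ 0) (hb : b ≠ 0) :
    W.map (fst X Y) a * W.map (snd X Y) b ≠ 0 := by
  intro h0
  obtain ⟨a', ha'⟩ : ∃ a', W.tr X (a' * a) ≠ 0 := by
    by_contra hcon
    push Not at hcon
    exact ha (nondeg_right (W := W) hcon)
  obtain ⟨b', hb'⟩ : ∃ b', W.tr Y (b * b') ≠ 0 := by
    by_contra hcon
    push Not at hcon
    exact hb (W.nondeg b hcon)
  have h1 := W.tr_prod (a' * a) (b * b')
  have h2 : W.map (fst X Y) (a' * a) * W.map (snd X Y) (b * b') =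
      W.map (fst X Y) a' * (W.map (fst X Y) a * W.map (snd X Y) b) * W.map (snd X Y) b' := by
    rw [map_mul, map_mul]
    simp only [mul_assoc]
  rw [h2, h0, mul_zero, zero_mul, map_zero] at h1
  exact mul_ne_zero ha' hb' h1.symm

theorem mpn : S_MPN.{u, v} := by
  intro k _ 𝒱 ops W 𝒮 m
  induction m with
  | zero =>
    intro Y hY
    refine ⟨Y 0, IsProductOf.base (hY 0), Fin.cases (motive := fun i => (Y 0 ⟶ Y i)) (𝟙 (Y 0))
      (fun i => i.elim0), fun y hy => ?_⟩
    rw [List.ofFn_succ, List.ofFn_zero, List.prod_cons, List.prod_nil, mul_one]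
    change W.map (𝟙 (Y 0)) (y 0) ≠ 0
    rw [W.map_id]
    exact hy 0
  | succ m ih =>
    intro Y hY
    obtain ⟨P, hP, π, h⟩ := ih (fun i => Y i.succ) fun i => hY _
    refine ⟨(Y 0).prod P, IsProductOf.prod (IsProductOf.base (hY 0)) hP,
      Fin.cases (motive := fun i => ((Y 0).prod P ⟶ Y i)) (fst _ _)
      (fun i => snd _ _ ≫ π i), fun y hy => ?_⟩
    rw [List.ofFn_succ, List.prod_cons]
    change W.map (fst (Y 0) P) (y 0) *
      (List.ofFn fun i : Fin (m + 1) => W.map (snd (Y 0) P ≫ π i) (y i.succ)).prod ≠ 0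
    have h1 : (List.ofFn fun i : Fin (m + 1) => W.map (snd (Y 0) P ≫ π i) (y i.succ)).prod =
        W.map (snd (Y 0) P) (List.ofFn fun i : Fin (m + 1) => W.map (π i) (y i.succ)).prod := by
      rw [map_list_prod, List.map_ofFn]
      congr 2
      funext i
      exact W.map_comp _ _ _
    rw [h1]
    exact ext_ne_zero (hy 0) (h (fun i => y i.succ) fun i => hy _)

end Pool.Agent.Y70.WL
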